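import Mathlib
import Pool.Agent.helper73.AB.Main
import Pool.Agent.SG.Final

set_option autoImplicit false

/-!
# Almost all linear systems are non-special in every degree

`PS m0 N`: the multisets of integers `≥ m0` with `∑ C(m+1,2) = N`. `HasSpecial ms`: for some degree
`d` the system of degree `d` with multiplicities `ms` at general points is special. For every
`m0 ≥ 1`, every `e > 0` and all large `N`, all but a proportion `2 ^ (- N ^ (1/3 - e))` of the
elements of `PS m0 N` have no special system in any degree.
-/

namespace Pool.Agent.Results.MP_cfebfb_ag.AlmostAll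

open Pool.Agent.helper73.AA

/-- For every `e > 0` all but a proportion `2 ^ (- N ^ (1/3 - e))` of the multisets of
multiplicities `≥ m0` with `∑ C(m+1,2) = N` define non-special systems in every degree, for `N`
large. -/
theorem result (m0 : ℕ) (h0 : 1 ≤ m0) (e : ℝ) (he : 0 < e) :
    ∃ N0 : ℕ, ∀ N ≥ N0, 0 < (PS m0 N).ncard ∧
      ({ms ∈ PS m0 N | HasSpecial ms}.ncard : ℝ) ≤
        (2 : ℝ) ^ (-((N : ℝ) ^ (1 / 3 - e))) * (PS m0 N).ncard :=
  Pool.Agent.helper73.AB.almostAll (fun ε hε => Pool.Agent.SG.exactG ε hε) m0 h0 e he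

end Pool.Agent.Results.MP_cfebfb_ag.AlmostAll
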