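import Pool.Agent.KB.MainKB

set_option autoImplicit false

/-!
# Segre's conjecture for few different multiplicities besides eight arbitrary points

`T1`: at most eight points with arbitrary multiplicities `m i ≤ d1 - W - 4`, in Cremona standard
position with respect to the degree `d1`. `T2`: any number of points with arbitrary multiplicities
filling at most half of the area `d2 ^ 2`. The other points have multiplicities at most `W`; those
with multiplicities in the set `V` (of numbers at most `W / 1400`) are the main part.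
-/

namespace Pool.Agent.Results.MP_cfebfb_ag.EightArbitrary

open MvPolynomial Pool.Agent.helper89.Segre

/-- For general points the space of forms of degree `d` with multiplicities at least `m i` has the
expected dimension. -/
theorem result (d h W d1 d2 : ℕ) (m : Fin h → ℕ) (V : Finset ℕ) (T1 T2 : Finset (Fin h))
    (hW : 14000 ≤ W) (hV : ∀ x ∈ V, 1400 * x ≤ W) (hdis : Disjoint T1 T2) (hT : T1.card ≤ 8)
    (hd : d1 + d2 ≤ max d (W + 4))
    (h1 : ∀ s ⊆ T1, s.card ≤ 1 → ∑ i ∈ s, m i + (W + 4) ≤ d1)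
    (h2 : ∀ s ⊆ T1, s.card ≤ 3 → ∑ i ∈ s, m i ≤ d1)
    (h3 : T1.card ≤ 2 ∨ ∀ i ∈ T1, W + 4 ≤ m i)
    (h4 : 2 * ∑ i ∈ T2, (m i + 1) ^ 2 ≤ d2 ^ 2)
    (hm : ∀ i, i ∉ T1 → i ∉ T2 → m i ≤ W)
    (H1 : 2000 * (W : ℝ) ^ 2 * (V.card + Real.log W) ≤
      ((∑ i with i ∉ T1 ∧ i ∉ T2 ∧ m i ∈ V, m i ^ 2 : ℕ) : ℝ))
    (H2 : 40 * ∑ i with i ∉ T1 ∧ i ∉ T2 ∧ m i ∉ V, m i +
      20 * (∑ i ∈ T1 ∪ T2, (m i + 1) - 3 * d) ≤ ∑ i with i ∉ T1 ∧ i ∉ T2 ∧ m i ∈ V, m i) :
    ∃ Q : MvPolynomial (Fin h × Fin 3) ℂ, Q ≠ 0 ∧ ∀ p : Fin h → Fin 3 → ℂ,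
      eval (fun ij : Fin h × Fin 3 => p ij.1 ij.2) Q ≠ 0 →
      Module.finrank ℂ (sys d h m p) = (d + 2).choose 2 - ∑ k, (m k + 1).choose 2 :=
  Pool.Agent.KB.mainKB d h W d1 d2 m V T1 T2 hW hV hdis hT hd h1 h2 h3 h4 hm H1 H2

end Pool.Agent.Results.MP_cfebfb_ag.EightArbitrary
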