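import Pool.Agent.helper61.EX.H

set_option autoImplicit false

/-!
# Segre's conjecture for many equal multiplicities

For `h ≥ 200000 + 20000 log (m + 1)` the linear system of plane curves of degree `d` with `h`
general points of multiplicity `m` is non-special, for every degree `d`.
-/

namespace Pool.Agent.Results.MP_cfebfb_ag.ManyEqual

open MvPolynomial Pool.Agent.helper89.Segre

/-- If `h ≥ 200000 + 20000 log (m + 1)`, then for `h` general points the space of forms of degree
`d` with multiplicity at least `m` at each of them has dimension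
`max (0, binom (d + 2, 2) - h * binom (m + 1, 2))`, for every `d`. -/
theorem result (d h m : ℕ) (hh : 200000 + 20000 * Real.log (m + 1) ≤ (h : ℝ)) :
    ∃ Q : MvPolynomial (Fin h × Fin 3) ℂ, Q ≠ 0 ∧ ∀ p : Fin h → Fin 3 → ℂ,
      eval (fun ij : Fin h × Fin 3 => p ij.1 ij.2) Q ≠ 0 →
      Module.finrank ℂ (sys d h (fun _ => m) p) = (d + 2).choose 2 - h * (m + 1).choose 2 :=
  Pool.Agent.helper61.EX.mainH h m d hh

end Pool.Agent.Results.MP_cfebfb_ag.ManyEqual
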