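import Mathlib
import Pool.Agent.helper89.Segre.Def
import Pool.Agent.SGN.FinX

set_option autoImplicit false

/-!
# Linear systems of plane curves with nine arbitrary and any number of smaller multiplicities

Degree `d`, multiplicities `b 0, ..., b 8` at nine general points, arbitrary but
`b i + b j + b k ≤ d` for distinct `i, j, k` (standard), multiplicities `m i` at `h` further general points,
`N = d² - ∑ (b i)²`, `T = ∑ (m i)²`. For all `ε, δ > 0` there is a constant `C` such that the system is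
non-special in each of the following cases:

* for some real `r ≥ C` with `b i + r ≤ d`, `r² ≤ N` and `C (m i) ≤ r` for all `i`: the `i` with
  `C (m i + 1) ^ (1 + ε) ≤ r` have `∑ (m i)² ≥ δ N`, or the others have `∑ (m i)² ≤ (1 - δ) N`, or
  `T ≥ (1 + δ) N`;
* for some `M`, all `m i ≤ M`, `b i + C (M + 1) ^ (1 + ε) ≤ d` whenever `b i ≠ 0` and
  `C (M + 1) ^ (2 + ε) ≤ T`;
* for some `M`, all `m i ≤ M`, `b i + C (M + 1) ≤ d` and `C (M + 1) ^ (5/2 + ε) ≤ N` or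
  `C (M + 1) ^ (5/2 + ε) ≤ T`.
-/

namespace Pool.Agent.Results.MP_cfebfb_ag.StandardSublinear

open MvPolynomial Pool.Agent.helper89.Segre

/-- For general points the space of forms of degree `d` with multiplicity at least `b 0, ..., b 8`,
`m 0, ..., m (h - 1)` at these `9 + h` points has the expected dimension. -/
theorem result (ε δ : ℝ) (hε : 0 < ε) (hδ : 0 < δ) : ∃ C : ℝ, 0 < C ∧
    ∀ (d h : ℕ) (b : Fin 9 → ℕ) (m : Fin h → ℕ),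
    (∀ i j k, i ≠ j → j ≠ k → i ≠ k → b i + b j + b k ≤ d) →
    ((∃ r : ℝ, C ≤ r ∧ (∀ i, (b i : ℝ) + r ≤ d) ∧ ∑ i, (b i : ℝ) ^ 2 + r ^ 2 ≤ (d : ℝ) ^ 2 ∧
        (∀ i, C * (m i : ℝ) ≤ r) ∧
        (∑ i with ¬ C * ((m i : ℝ) + 1) ^ (1 + ε) ≤ r, (m i : ℝ) ^ 2 ≤
            (1 - δ) * ((d : ℝ) ^ 2 - ∑ i, (b i : ℝ) ^ 2) ∨
          δ * ((d : ℝ) ^ 2 - ∑ i, (b i : ℝ) ^ 2) ≤
            ∑ i with C * ((m i : ℝ) + 1) ^ (1 + ε) ≤ r, (m i : ℝ) ^ 2 ∨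
          (1 + δ) * ((d : ℝ) ^ 2 - ∑ i, (b i : ℝ) ^ 2) ≤ ∑ i, (m i : ℝ) ^ 2)) ∨
      ∃ M : ℕ, (∀ i, m i ≤ M) ∧
        (((∀ i, b i ≠ 0 → (b i : ℝ) + C * ((M : ℝ) + 1) ^ (1 + ε) ≤ d) ∧
            C * ((M : ℝ) + 1) ^ (2 + ε) ≤ ∑ i, (m i : ℝ) ^ 2) ∨
          ((∀ i, (b i : ℝ) + C * ((M : ℝ) + 1) ≤ d) ∧
            (∑ i, (b i : ℝ) ^ 2 + C * ((M : ℝ) + 1) ^ (5 / 2 + ε) ≤ (d : ℝ) ^ 2 ∨
              C * ((M : ℝ) + 1) ^ (5 / 2 + ε) ≤ ∑ i, (m i : ℝ) ^ 2)))) →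
    ∃ Q : MvPolynomial (Fin (9 + h) × Fin 3) ℂ, Q ≠ 0 ∧ ∀ p : Fin (9 + h) → Fin 3 → ℂ,
      eval (fun ij : Fin (9 + h) × Fin 3 => p ij.1 ij.2) Q ≠ 0 →
      Module.finrank ℂ (sys d (9 + h) (Fin.append b m) p) =
        (d + 2).choose 2 - ∑ k : Fin (9 + h), (Fin.append b m k + 1).choose 2 :=
  Pool.Agent.SGN.exactUN ε δ hε hδ

end Pool.Agent.Results.MP_cfebfb_ag.StandardSublinear
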